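import Pool.Agent.Lib.MP_7dd29b_gt.H47Main

/-!
A Minkowski norm in dimension at least three whose Hessian metric has, at each point of the
indicatrix, the same sectional curvature on all planes tangent to the indicatrix (the same at all
points in dimension three) is Euclidean.
-/

namespace Pool.Agent.Results.MP_7dd29b_gt.IsotropicEuclidean

open Pool.Agent.Lib.MP_7dd29b_gt.Riem Matrix
open scoped ContDiff

theorem result (n : ℕ) (hn : 3 ≤ n) (F : (Fin n → ℝ) → ℝ) (smooth : ContDiffOn ℝ ∞ F {0}ᶜ)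
    (pos : ∀ y, y ≠ 0 → 0 < F y) (homog : ∀ t : ℝ, 0 < t → ∀ y, F (t • y) = t * F y)
    (posDef : ∀ y, y ≠ 0 → (hessMetric F y).PosDef) (S : (Fin n → ℝ) → ℝ)
    (const3 : n = 3 → ∀ y z, F y = 1 → F z = 1 → S y = S z)
    (curv : ∀ y, F y = 1 → ∀ u v, fderiv ℝ F y u = 0 → fderiv ℝ F y v = 0 →
      ∑ a, ∑ i, ∑ j, ∑ k, u a * u i * v j * v k *
          ∑ l, hessMetric F y a l * riemann (hessMetric F) l i j k y =
        S y * ((u ⬝ᵥ hessMetric F y *ᵥ u) * (v ⬝ᵥ hessMetric F y *ᵥ v) -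
          (u ⬝ᵥ hessMetric F y *ᵥ v) ^ 2)) :
    ∃ A : Matrix (Fin n) (Fin n) ℝ, A.IsSymm ∧ (∀ y, y ≠ 0 → 0 < (A *ᵥ y) ⬝ᵥ y) ∧
      ∀ y, F y = √((A *ᵥ y) ⬝ᵥ y) := by
  obtain ⟨A, hA, h⟩ := euclidean_of_isotropic hn F smooth pos homog posDef S const3 curv
  refine ⟨A, by simpa [Matrix.IsSymm, Matrix.IsHermitian] using hA.isHermitian, fun y hy => ?_,
    fun y => ?_⟩
  · rw [dotProduct_comm]
    simpa using hA.dotProduct_mulVec_pos hy
  · rw [h, dotProduct_comm]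

end Pool.Agent.Results.MP_7dd29b_gt.IsotropicEuclidean
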